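import Mathlib

set_option autoImplicit false

/-!
# A self-shuffling word with exactly one steering word

`y` is the word over `{0,...,6}` which begins with `0123456` and is produced by the steering word
`1^7 2^5 (2 1 1 2 2 1)^ω`.  After position 12 each letter is copied from about half the position, so
the factors of length 17 starting at the positions `3p-1` are generated by two substitutions on a set
of 87 windows.  The finite check on these windows shows that every deviation from the main steering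
word (or from the degenerate one that only uses the first copy) dies within five steps.
-/

namespace Pool.Agent.Results.MP_814ec7_co.UniqueSteering

/-- the position from which the letter at position `n ≥ 7` is copied -/
def ptr (n : ℕ) : ℕ :=
  if n < 12 then n - 7 else
    match (n - 12) % 6 with
    | 0 => 5 + 3 * ((n - 12) / 6)
    | 1 => 7 + 3 * ((n - 12) / 6)
    | 2 => 8 + 3 * ((n - 12) / 6)
    | 3 => 6 + 3 * ((n - 12) / 6)
    | 4 => 7 + 3 * ((n - 12) / 6)
    | _ => 9 + 3 * ((n - 12) / 6)

/-- the number of letters taken from the first copy before time `n` -/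
def cnt (n : ℕ) : ℕ :=
  if n ≤ 7 then n else if n ≤ 12 then 7 else
    match (n - 12) % 6 with
    | 0 => 7 + 3 * ((n - 12) / 6)
    | 1 => 7 + 3 * ((n - 12) / 6)
    | 2 => 8 + 3 * ((n - 12) / 6)
    | _ => 9 + 3 * ((n - 12) / 6)

lemma ptr_lt (n : ℕ) (h : 7 ≤ n) : ptr n < n := by
  unfold ptr
  split_ifs with h1
  · omega
  · split <;> omega

/-- the word, with fuel -/
def xf : ℕ → ℕ → ℕ
  | 0, n => n
  | f + 1, n => if n < 7 then n else xf f (ptr n)

def y (n : ℕ) : ℕ := xf n n

lemma xf_small (f n : ℕ) (h : n < 7) : xf f n = n := by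
  cases f with
  | zero => rfl
  | succ f => simp [xf, h]

lemma xf_stable : ∀ (f n : ℕ), n ≤ f → xf f n = y n := by
  intro f
  induction f using Nat.strong_induction_on with
  | _ f ih =>
    intro n hn
    by_cases h7 : n < 7
    · rw [xf_small f n h7, y, xf_small n n h7]
    · have hp := ptr_lt n (by omega)
      obtain ⟨g, rfl⟩ : ∃ g, f = g + 1 := ⟨f - 1, by omega⟩
      obtain ⟨m, rfl⟩ : ∃ m, n = m + 1 := ⟨n - 1, by omega⟩
      have h1 : xf (g + 1) (m + 1) = xf g (ptr (m + 1)) := by simp [xf, h7]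
      have h2 : y (m + 1) = xf m (ptr (m + 1)) := by simp [y, xf, h7]
      rw [h1, h2, ih g (by omega) _ (by omega)]
      by_cases hmg : m = g
      · subst hmg
        exact (ih m (by omega) _ (by omega)).symm
      · exact (ih m (by omega) _ (by omega)).symm

lemma y_small (n : ℕ) (h : n < 7) : y n = n := xf_small n n h

lemma y_step (n : ℕ) (h : 7 ≤ n) : y n = y (ptr n) := by
  obtain ⟨m, rfl⟩ : ∃ m, n = m + 1 := ⟨n - 1, by omega⟩
  have hp := ptr_lt (m + 1) h
  have h2 : y (m + 1) = xf m (ptr (m + 1)) := by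
    have : ¬ (m + 1 < 7) := by omega
    simp [y, xf, this]
  rw [h2, xf_stable m _ (by omega)]

lemma y_lt (n : ℕ) : y n < 7 := by
  induction n using Nat.strong_induction_on with
  | _ n ih =>
    by_cases h7 : n < 7
    · rw [y_small n h7]; exact h7
    · rw [y_step n (by omega)]
      exact ih _ (ptr_lt n (by omega))

/-! ### windows -/

def codes : List ℕ := [
    1316417421203665, 1445130383417900, 495403729523761, 1760186189850826, 601572189162196,
    436581550281253, 1210315488893993, 754429850838030, 1562780007244338, 1164136583633105,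
    459670541419724, 1619378910112482, 1727197081786581, 355217152688684, 774749969455649,
    1725547415886861, 355213930684974, 717575358518321, 1175679932836874, 367334110290454,
    717599030744113, 1316417467427018, 1493508895130324, 719798590870753, 1316421763442890,
    1445130391898836, 425034985362661, 1302651913742570, 1445103497661140, 495403677012517,
    1865739306014761, 1446203277724172, 495405825020453, 1760186193943593, 601572189170190,
    493756154925621, 1760182971931689, 601572182877198, 493756154913330, 1760182971931665,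
    436581550268978, 1210315488893969, 613692362482702, 436605222494770, 1210315535128785,
    613692362573004, 436605222494946, 754429850928332, 1562780007244514, 1212515095255249,
    754434146944204, 1562780015635170, 1212515095271637, 754434146944236, 1164136583649493,
    459670541419756, 1549010165934818, 1164109689411797, 459670488891948, 1549010165832225,
    1164109689411597, 1619378910009889, 1727197081786381, 460770268955180, 1619381058017825,
    1727197085981709, 460770268963374, 1619381058017841, 355217152696878, 774749969455665,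
    774749963162673, 1725547415874570, 355213930684950, 1175679979071690, 367334110380756,
    717599030744289, 1493508903520980, 719798590887141, 1316421763442922, 425034932834853,
    1302651913639977, 1445103497660940, 1865739310210089, 1446203277732366, 495405825020469,
    355216935643930, 717575364387381]

def nx0 : List ℕ := [
    3, 5, 7, 9, 11, 13, 15, 17, 19, 21, 23, 25, 27, 29, 31, 33, 35, 37, 39, 40, 42, 44, 46, 47,
    49, 51, 53, 54, 56, 58, 60, 61, 63, 65, 67, 68, 15, 70, 72, 71, 72, 71, 17, 19, 73, 75, 74,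
    75, 74, 21, 23, 76, 78, 77, 78, 77, 25, 27, 79, 81, 80, 81, 80, 29, 31, 82, 84, 83, 84, 83,
    37, 39, 38, 44, 46, 45, 51, 53, 52, 58, 60, 59, 65, 67, 66]

def nx1 : List ℕ := [
    4, 6, 8, 10, 12, 14, 16, 18, 20, 22, 24, 26, 28, 30, 32, 34, 36, 38, 37, 41, 43, 45, 44,
    48, 50, 52, 51, 55, 57, 59, 58, 62, 64, 66, 65, 69, 16, 71, 70, 72, 70, 72, 18, 20, 74, 73,
    75, 73, 75, 22, 24, 77, 76, 78, 76, 78, 26, 28, 80, 79, 81, 79, 81, 30, 32, 83, 82, 84, 82,
    84, 38, 37, 39, 45, 44, 46, 52, 51, 53, 59, 58, 60, 66, 65, 67]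

def nx (e k : ℕ) : ℕ := if e = 0 then nx0.getD k 0 else nx1.getD k 0

def srcT : List ℕ := [1, 0, 2, 3, 1, 2, 4, 3, 5, 6, 4, 5, 7, 6, 8, 9, 7, 8, 10, 9]

def letter (k t : ℕ) : ℕ := (codes.getD k 0 / 8 ^ t) % 8

lemma ptr_src (p τ : ℕ) (hp : 3 ≤ p) (hτ : τ < 20) :
    ptr (6 * p - 1 + τ) = 3 * p - 1 + srcT.getD τ 0 := by
  obtain ⟨p, rfl⟩ : ∃ m, p = m + 3 := ⟨p - 3, by omega⟩
  have hn : ∀ τ, 6 * (p + 3) - 1 + τ = 12 + (6 * p + (5 + τ)) := fun τ => by omega
  rw [hn]
  unfold ptr
  have h1 : ¬ (12 + (6 * p + (5 + τ)) < 12) := by omega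
  rw [if_neg h1]
  have h2 : 12 + (6 * p + (5 + τ)) - 12 = 6 * p + (5 + τ) := by omega
  rw [h2]
  have h3 : (6 * p + (5 + τ)) % 6 = (5 + τ) % 6 := by omega
  have h4 : (6 * p + (5 + τ)) / 6 = p + (5 + τ) / 6 := by omega
  rw [h3, h4]
  interval_cases τ <;> simp [srcT] <;> omega

lemma closure_ok : ∀ k < 85, ∀ e < 2, nx e k < 85 ∧
    ∀ t < 17, letter (nx e k) t = letter k (srcT.getD (t + 3 * e) 0) := by
  decide +kernel

lemma srcT_lt : ∀ t < 17, ∀ e < 2, srcT.getD (t + 3 * e) 0 < 17 := by
  decide +kernel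

lemma base_ok : (∀ t < 17, y (3 * 3 - 1 + t) = letter 0 t) ∧ (∀ t < 17, y (3 * 4 - 1 + t) = letter 1 t) ∧
    (∀ t < 17, y (3 * 5 - 1 + t) = letter 2 t) ∧ (∀ t < 17, y (3 * 1 - 1 + t) = letter 85 t) ∧
    (∀ t < 17, y (3 * 2 - 1 + t) = letter 86 t) := by
  decide +kernel

lemma win (p : ℕ) (hp : 3 ≤ p) : ∃ k < 85, ∀ t < 17, y (3 * p - 1 + t) = letter k t := by
  induction p using Nat.strong_induction_on with
  | _ P ih =>
    by_cases h6 : P < 6
    · interval_cases P
      · exact ⟨0, by norm_num, base_ok.1⟩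
      · exact ⟨1, by norm_num, base_ok.2.1⟩
      · exact ⟨2, by norm_num, base_ok.2.2.1⟩
    · obtain ⟨k, hk, hw⟩ := ih (P / 2) (by omega) (by omega)
      refine ⟨nx (P % 2) k, (closure_ok k hk (P % 2) (by omega)).1, ?_⟩
      intro t ht
      rw [(closure_ok k hk (P % 2) (by omega)).2 t ht, y_step _ (by omega)]
      have h1 : 3 * P - 1 + t = 6 * (P / 2) - 1 + (t + 3 * (P % 2)) := by omega
      rw [h1, ptr_src (P / 2) _ (by omega) (by omega)]
      exact hw _ (srcT_lt t ht _ (by omega))

lemma win' (p : ℕ) (hp : 1 ≤ p) : ∃ k < 87, ∀ t < 17, y (3 * p - 1 + t) = letter k t := by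
  by_cases h3 : 3 ≤ p
  · obtain ⟨k, hk, hw⟩ := win p h3
    exact ⟨k, by omega, hw⟩
  · interval_cases p
    · exact ⟨85, by norm_num, base_ok.2.2.2.1⟩
    · exact ⟨86, by norm_num, base_ok.2.2.2.2⟩

/-! ### alternative paths -/

/-- is there a path of length `d` from the state `(A,B)` at time `m`? -/
def V (X L1 L2 : ℕ → ℕ) : ℕ → ℕ → ℕ → ℕ → Bool
  | 0, _, _, _ => true
  | d + 1, m, A, B => (X m == L1 A && V X L1 L2 d (m + 1) (A + 1) B) ||
      (X m == L2 B && V X L1 L2 d (m + 1) A (B + 1))

lemma V_congr (X X' L1 L1' L2 L2' : ℕ → ℕ) : ∀ (d m A B m' A' B' : ℕ),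
    (∀ u < d, X (m + u) = X' (m' + u)) → (∀ u < d, L1 (A + u) = L1' (A' + u)) →
    (∀ u < d, L2 (B + u) = L2' (B' + u)) → V X L1 L2 d m A B = V X' L1' L2' d m' A' B' := by
  intro d
  induction d with
  | zero => intros; rfl
  | succ d ih =>
    intro m A B m' A' B' hX h1 h2
    have e0 := hX 0 (by omega)
    have e1 := h1 0 (by omega)
    have e2 := h2 0 (by omega)
    simp only [add_zero] at e0 e1 e2
    simp only [V]
    rw [e0, e1, e2]
    rw [ih (m + 1) (A + 1) B (m' + 1) (A' + 1) B'
      (fun u hu => by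
        have := hX (u + 1) (by omega)
        rw [show m + 1 + u = m + (u + 1) by ring, show m' + 1 + u = m' + (u + 1) by ring]; exact this)
      (fun u hu => by
        have := h1 (u + 1) (by omega)
        rw [show A + 1 + u = A + (u + 1) by ring, show A' + 1 + u = A' + (u + 1) by ring]; exact this)
      (fun u hu => h2 u (by omega))]
    rw [ih (m + 1) A (B + 1) (m' + 1) A' (B' + 1)
      (fun u hu => by
        have := hX (u + 1) (by omega)
        rw [show m + 1 + u = m + (u + 1) by ring, show m' + 1 + u = m' + (u + 1) by ring]; exact this)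
      (fun u hu => h1 u (by omega))
      (fun u hu => by
        have := h2 (u + 1) (by omega)
        rw [show B + 1 + u = B + (u + 1) by ring, show B' + 1 + u = B' + (u + 1) by ring]; exact this)]

def off (ρ : ℕ) : ℕ := [3, 5, 6, 4, 5, 7].getD (ρ % 6) 0 + 3 * (ρ / 6)

lemma ptr_off (q ρ : ℕ) (hρ : ρ < 12) : ptr (12 + 6 * q + ρ) = 3 * (q + 1) - 1 + off ρ := by
  unfold ptr
  rw [if_neg (by omega)]
  have h2 : 12 + 6 * q + ρ - 12 = 6 * q + ρ := by omega
  have h3 : (6 * q + ρ) % 6 = ρ % 6 := by omega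
  have h4 : (6 * q + ρ) / 6 = q + ρ / 6 := by omega
  rw [h2, h3, h4]
  interval_cases ρ <;> simp [off] <;> omega

/-- offset of the first pointer -/
def oa (r : ℕ) : ℕ := [5, 5, 6, 7, 7, 7].getD r 0
/-- offset of the second pointer -/
def ob (r : ℕ) : ℕ := [3, 4, 4, 4, 5, 6].getD r 0
/-- is the letter taken from the first copy? -/
def c1 (r : ℕ) : Bool := [false, true, true, false, false, true].getD r false

def XX (k r m : ℕ) : ℕ := letter k (off (r + m))

def chkM (k r : ℕ) : Bool :=
  if c1 r then !(XX k r 0 == letter k (ob r) && V (XX k r) (letter k) (letter k) 5 1 (oa r) (ob r + 1))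
  else !(XX k r 0 == letter k (oa r) && V (XX k r) (letter k) (letter k) 5 1 (oa r + 1) (ob r))

def chkT (k r : ℕ) : Bool :=
  !(XX k r 0 == 0 && V (XX k r) (XX k r) (fun B => B) 5 1 0 1)

lemma chk_ok : ∀ k < 87, ∀ r < 6, chkM k r = true ∧ chkT k r = true := by
  decide +kernel

lemma off_lt : ∀ ρ < 11, off ρ < 17 := by decide +kernel

lemma cnt_eq (q r : ℕ) (hr : r < 6) : cnt (12 + 6 * q + r) = 3 * (q + 1) - 1 + oa r := by
  unfold cnt
  rw [if_neg (by omega)]
  by_cases h : 12 + 6 * q + r ≤ 12
  · rw [if_pos h]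
    have hq : q = 0 := by omega
    have hr0 : r = 0 := by omega
    subst hq; subst hr0; rfl
  · rw [if_neg h]
    have h2 : 12 + 6 * q + r - 12 = 6 * q + r := by omega
    have h3 : (6 * q + r) % 6 = r := by omega
    have h4 : (6 * q + r) / 6 = q := by omega
    rw [h2, h3, h4]
    interval_cases r <;> simp [oa] <;> omega

lemma cnt_small (n : ℕ) (h : n ≤ 7) : cnt n = n := by
  unfold cnt; rw [if_pos h]

lemma cnt_mid (n : ℕ) (h : 7 ≤ n) (h2 : n ≤ 12) : cnt n = 7 := by
  unfold cnt
  by_cases h7 : n ≤ 7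
  · rw [if_pos h7]; omega
  · rw [if_neg h7, if_pos h2]

lemma oa_ob : ∀ r < 6, oa r + ob r = 8 + r := by decide

lemma cnt_sub (q r : ℕ) (hr : r < 6) :
    12 + 6 * q + r - cnt (12 + 6 * q + r) = 3 * (q + 1) - 1 + ob r := by
  have h1 := oa_ob r hr
  rw [cnt_eq q r hr]
  omega

lemma cnt_succ (q r : ℕ) (hr : r < 6) :
    cnt (12 + 6 * q + r + 1) = cnt (12 + 6 * q + r) + (if c1 r then 1 else 0) := by
  by_cases h5 : r < 5
  · rw [show 12 + 6 * q + r + 1 = 12 + 6 * q + (r + 1) by ring, cnt_eq q r hr, cnt_eq q (r + 1) (by omega)]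
    interval_cases r <;> simp [oa, c1] <;> omega
  · have : r = 5 := by omega
    subst this
    rw [show 12 + 6 * q + 5 + 1 = 12 + 6 * (q + 1) + 0 by ring, cnt_eq q 5 hr, cnt_eq (q + 1) 0 (by omega)]
    simp [oa, c1]; omega

lemma ptr_eq (q r : ℕ) (hr : r < 6) : ptr (12 + 6 * q + r) =
    if c1 r then cnt (12 + 6 * q + r) else 12 + 6 * q + r - cnt (12 + 6 * q + r) := by
  rw [cnt_sub q r hr, cnt_eq q r hr, ptr_off q r (by omega)]
  interval_cases r <;> simp [oa, ob, off, c1]

lemma decomp (n : ℕ) (h : 12 ≤ n) : ∃ q r, r < 6 ∧ n = 12 + 6 * q + r :=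
  ⟨(n - 12) / 6, (n - 12) % 6, by omega, by omega⟩

lemma cnt_le (n : ℕ) : cnt n ≤ n := by
  by_cases h : n < 12
  · by_cases h7 : n ≤ 7
    · rw [cnt_small n h7]
    · rw [cnt_mid n (by omega) (by omega)]; omega
  · obtain ⟨q, r, hr, rfl⟩ := decomp n (by omega)
    rw [cnt_eq q r hr]
    have h1 := oa_ob r hr
    have h2 : 3 ≤ ob r := by revert h1; interval_cases r <;> simp [ob]
    omega

/-- for `n ≥ 9` the main path is at distance at least two from the degenerate path -/
lemma cnt_lt (n : ℕ) (h : 9 ≤ n) : cnt n + 2 ≤ n := by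
  by_cases h12 : n < 12
  · rw [cnt_mid n (by omega) (by omega)]; omega
  · obtain ⟨q, r, hr, rfl⟩ := decomp n (by omega)
    rw [cnt_eq q r hr]
    have h1 := oa_ob r hr
    have h2 : 3 ≤ ob r := by revert h1; interval_cases r <;> simp [ob]
    omega

/-- each step of the main path -/
lemma main_step (n : ℕ) : (cnt (n + 1) = cnt n + 1 ∧ y n = y (cnt n)) ∨
    (cnt (n + 1) = cnt n ∧ y n = y (n - cnt n)) := by
  by_cases h7 : n < 7
  · left
    rw [cnt_small n (by omega), cnt_small (n + 1) (by omega)]
    exact ⟨rfl, rfl⟩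
  · by_cases h12 : n < 12
    · right
      rw [cnt_mid n (by omega) (by omega), cnt_mid (n + 1) (by omega) (by omega)]
      refine ⟨rfl, ?_⟩
      rw [y_step n (by omega)]
      unfold ptr
      rw [if_pos h12]
    · obtain ⟨q, r, hr, rfl⟩ := decomp n (by omega)
      have h1 := cnt_succ q r hr
      have h2 := ptr_eq q r hr
      have h3 := y_step (12 + 6 * q + r) (by omega)
      cases hc : c1 r with
      | true =>
        left
        rw [hc] at h1 h2
        simp only [if_true] at h1 h2
        exact ⟨h1, by rw [h3, h2]⟩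
      | false =>
        right
        rw [hc] at h1 h2
        simp only [Bool.false_eq_true, if_false] at h1 h2
        exact ⟨by omega, by rw [h3, h2]⟩

lemma XX_eq (q k r m : ℕ) (hw : ∀ t < 17, y (3 * (q + 1) - 1 + t) = letter k t)
    (h : r + m < 11) : y (12 + 6 * q + r + m) = XX k r m := by
  rw [y_step _ (by omega), show 12 + 6 * q + r + m = 12 + 6 * q + (r + m) by ring,
    ptr_off q (r + m) (by omega), hw _ (off_lt _ h)]
  rfl

lemma transferM (q k r A B : ℕ) (hr : r < 6)
    (hw : ∀ t < 17, y (3 * (q + 1) - 1 + t) = letter k t) (hA : A ≤ 12) (hB : B ≤ 12) :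
    V y y y 5 (12 + 6 * q + r + 1) (3 * (q + 1) - 1 + A) (3 * (q + 1) - 1 + B) =
    V (XX k r) (letter k) (letter k) 5 1 A B := by
  apply V_congr
  · intro u hu
    rw [show 12 + 6 * q + r + 1 + u = 12 + 6 * q + r + (1 + u) by ring]
    exact XX_eq q k r (1 + u) hw (by omega)
  · intro u hu
    rw [add_assoc]
    exact hw _ (by omega)
  · intro u hu
    rw [add_assoc]
    exact hw _ (by omega)

lemma transferT (q k r : ℕ) (hr : r < 6)
    (hw : ∀ t < 17, y (3 * (q + 1) - 1 + t) = letter k t) :
    V y y y 5 (12 + 6 * q + r + 1) (12 + 6 * q + r) 1 =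
    V (XX k r) (XX k r) (fun B => B) 5 1 0 1 := by
  apply V_congr
  · intro u hu
    rw [show 12 + 6 * q + r + 1 + u = 12 + 6 * q + r + (1 + u) by ring]
    exact XX_eq q k r (1 + u) hw (by omega)
  · intro u hu
    rw [zero_add]
    exact XX_eq q k r u hw (by omega)
  · intro u hu
    exact y_small _ (by omega)

lemma small_ok : ∀ n < 12, 8 ≤ n → (y n == y 7 && V y y y 5 (n + 1) 8 (n - 7)) = false ∧
    (y n == 0 && V y y y 5 (n + 1) n 1) = false := by
  decide +kernel

/-- a path: `a n` is the number of letters taken from the first copy before time `n` -/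
structure IsPath (a : ℕ → ℕ) : Prop where
  le : ∀ n, a n ≤ n
  step : ∀ n, (y n = y (a n) ∧ a (n + 1) = a n + 1) ∨ (y n = y (n - a n) ∧ a (n + 1) = a n)

lemma path_V (a : ℕ → ℕ) (ha : IsPath a) : ∀ (d n : ℕ), V y y y d n (a n) (n - a n) = true := by
  intro d
  induction d with
  | zero => intro n; rfl
  | succ d ih =>
    intro n
    have h0 := ha.le n
    have h1 := ih (n + 1)
    rcases ha.step n with ⟨e1, e2⟩ | ⟨e1, e2⟩
    · rw [e2, show n + 1 - (a n + 1) = n - a n by omega] at h1
      simp [V, h1, ← e1]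
    · rw [e2, show n + 1 - a n = n - a n + 1 by omega] at h1
      simp [V, h1, ← e1]

lemma stay_main (a : ℕ → ℕ) (ha : IsPath a) (n : ℕ) (hn : 8 ≤ n) (h : a n = cnt n) :
    a (n + 1) = cnt (n + 1) := by
  have hV := path_V a ha 5 (n + 1)
  have hle := ha.le n
  by_cases h12 : n < 12
  · have hc := cnt_mid n (by omega) (by omega)
    have hc' := cnt_mid (n + 1) (by omega) (by omega)
    rcases ha.step n with ⟨e1, e2⟩ | ⟨e1, e2⟩
    · exfalso
      have h1 := (small_ok n h12 hn).1
      rw [e2, h, hc] at hV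
      rw [h, hc] at e1
      rw [show n + 1 - (7 + 1) = n - 7 by omega] at hV
      rw [hV, e1] at h1
      simp at h1
    · rw [e2, h, hc, hc']
  · obtain ⟨q, r, hr, rfl⟩ := decomp n (by omega)
    obtain ⟨k, hk, hw⟩ := win' (q + 1) (by omega)
    have hchk := (chk_ok k hk r hr).1
    have h1 := cnt_succ q r hr
    have h2 := cnt_eq q r hr
    have h3 := cnt_sub q r hr
    have hX : y (12 + 6 * q + r) = XX k r 0 := by
      have := XX_eq q k r 0 hw (by omega)
      simpa using this
    have hoa : oa r ≤ 7 := by interval_cases r <;> simp [oa]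
    have hob : ob r ≤ 6 := by interval_cases r <;> simp [ob]
    unfold chkM at hchk
    cases hc : c1 r with
    | true =>
      rw [hc] at h1 hchk
      simp only [if_true] at h1 hchk
      rcases ha.step (12 + 6 * q + r) with ⟨e1, e2⟩ | ⟨e1, e2⟩
      · rw [e2, h, h1]
      · exfalso
        rw [h, h3] at e1
        rw [e2, h, show 12 + 6 * q + r + 1 - cnt (12 + 6 * q + r) =
          12 + 6 * q + r - cnt (12 + 6 * q + r) + 1 by omega, h3, h2,
          show 3 * (q + 1) - 1 + ob r + 1 = 3 * (q + 1) - 1 + (ob r + 1) by ring,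
          transferM q k r (oa r) (ob r + 1) hr hw (by omega) (by omega)] at hV
        rw [hV, ← hX, e1, hw (ob r) (by omega)] at hchk
        simp at hchk
    | false =>
      rw [hc] at h1 hchk
      simp only [Bool.false_eq_true, if_false] at h1 hchk
      rcases ha.step (12 + 6 * q + r) with ⟨e1, e2⟩ | ⟨e1, e2⟩
      · exfalso
        rw [h, h2] at e1
        rw [e2, h, show 12 + 6 * q + r + 1 - (cnt (12 + 6 * q + r) + 1) =
          12 + 6 * q + r - cnt (12 + 6 * q + r) by omega, h3, h2,
          show 3 * (q + 1) - 1 + oa r + 1 = 3 * (q + 1) - 1 + (oa r + 1) by ring,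
          transferM q k r (oa r + 1) (ob r) hr hw (by omega) (by omega)] at hV
        rw [hV, ← hX, e1, hw (oa r) (by omega)] at hchk
        simp at hchk
      · rw [e2, h, h1]; rfl

lemma no_trivial (a : ℕ → ℕ) (ha : IsPath a) (n : ℕ) (hn : 8 ≤ n) (h : a n = n) :
    a (n + 1) = n + 1 := by
  have hV := path_V a ha 5 (n + 1)
  rcases ha.step n with ⟨e1, e2⟩ | ⟨e1, e2⟩
  · rw [e2, h]
  · exfalso
    rw [h, Nat.sub_self, y_small 0 (by norm_num)] at e1
    rw [e2, h, show n + 1 - n = 1 by omega] at hV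
    by_cases h12 : n < 12
    · have h1 := (small_ok n h12 hn).2
      rw [hV, e1] at h1
      simp at h1
    · obtain ⟨q, r, hr, rfl⟩ := decomp n (by omega)
      obtain ⟨k, hk, hw⟩ := win' (q + 1) (by omega)
      have hchk := (chk_ok k hk r hr).2
      unfold chkT at hchk
      have hX : y (12 + 6 * q + r) = XX k r 0 := by
        have := XX_eq q k r 0 hw (by omega)
        simpa using this
      rw [transferT q k r hr hw] at hV
      rw [hV, ← hX, e1] at hchk
      simp at hchk

lemma path_eq (a : ℕ → ℕ) (ha : IsPath a) (h1 : a 1 = 1)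
    (hinf : ∀ n, ∃ m, n ≤ m ∧ a (m + 1) = a m) : ∀ n, a n = cnt n := by
  have hQ : ∀ n, a n = cnt n ∨ (a n = n ∧ 8 ≤ n) := by
    intro n
    induction n with
    | zero =>
      left
      have := ha.le 0
      rw [cnt_small 0 (by omega)]; omega
    | succ n ih =>
      rcases ih with ih | ⟨ih, h8⟩
      · by_cases h8 : 8 ≤ n
        · exact Or.inl (stay_main a ha n h8 ih)
        · by_cases h7 : n = 7
          · subst h7
            rw [cnt_small 7 (by omega)] at ih
            rcases ha.step 7 with ⟨e1, e2⟩ | ⟨e1, e2⟩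
            · right; rw [e2, ih]; exact ⟨rfl, le_refl _⟩
            · left; rw [e2, ih, cnt_mid 8 (by omega) (by omega)]
          · left
            rw [cnt_small n (by omega)] at ih
            rw [cnt_small (n + 1) (by omega)]
            by_cases h0 : n = 0
            · subst h0; exact h1
            · rcases ha.step n with ⟨e1, e2⟩ | ⟨e1, e2⟩
              · rw [e2, ih]
              · exfalso
                rw [ih, Nat.sub_self, y_small 0 (by norm_num), y_small n (by omega)] at e1
                exact h0 e1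
      · exact Or.inr ⟨no_trivial a ha n h8 ih, by omega⟩
  intro n
  rcases hQ n with h | ⟨h, h8⟩
  · exact h
  · exfalso
    have hall : ∀ k, a (n + k) = n + k := by
      intro k
      induction k with
      | zero => exact h
      | succ k ih => exact no_trivial a ha (n + k) (by omega) ih
    obtain ⟨m, hm, hm2⟩ := hinf n
    have e1 := hall (m - n)
    have e2 := hall (m + 1 - n)
    rw [show n + (m - n) = m by omega] at e1
    rw [show n + (m + 1 - n) = m + 1 by omega] at e2
    omega

/-- the word over seven letters -/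
def x (n : ℕ) : Fin 7 := ⟨y n, y_lt n⟩

lemma x_eq_iff (m n : ℕ) : x m = x n ↔ y m = y n := by
  simp [x, Fin.ext_iff]

/-- the steering set -/
def N0 : Set ℕ := {n | cnt (n + 1) = cnt n + 1}

open Classical in
lemma count_compl (N : Set ℕ) (n : ℕ) :
    Nat.count (· ∈ N) n + Nat.count (· ∉ N) n = n := by
  induction n with
  | zero => simp
  | succ n ih =>
    rw [Nat.count_succ, Nat.count_succ]
    by_cases h : n ∈ N
    · simp only [h, if_true, not_true_eq_false, if_false]; omega
    · simp only [h, if_false, not_false_eq_true, if_true]; omega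

open Classical in
lemma count_N0 (n : ℕ) : Nat.count (· ∈ N0) n = cnt n := by
  induction n with
  | zero => simp [cnt]
  | succ n ih =>
    rw [Nat.count_succ, ih]
    rcases main_step n with ⟨e, -⟩ | ⟨e, -⟩
    · have : n ∈ N0 := e
      rw [if_pos this, e]
    · have : n ∉ N0 := fun h => by
        have h' : cnt (n + 1) = cnt n + 1 := h
        omega
      rw [if_neg this, e]; rfl

lemma N0_mem (q : ℕ) : 12 + 6 * q + 1 ∈ N0 := by
  show cnt (12 + 6 * q + 1 + 1) = cnt (12 + 6 * q + 1) + 1
  rw [cnt_succ q 1 (by omega)]; simp [c1]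

lemma N0_not_mem (q : ℕ) : 12 + 6 * q + 0 ∉ N0 := by
  intro h
  have h' : cnt (12 + 6 * q + 0 + 1) = cnt (12 + 6 * q + 0) + 1 := h
  rw [cnt_succ q 0 (by omega)] at h'
  simp [c1] at h'

lemma N0_inf : N0.Infinite :=
  Set.infinite_of_injective_forall_mem (f := fun q => 12 + 6 * q + 1)
    (fun a b h => by simp only at h; omega) N0_mem

lemma N0c_inf : N0ᶜ.Infinite :=
  Set.infinite_of_injective_forall_mem (f := fun q => 12 + 6 * q + 0)
    (fun a b h => by simp only at h; omega) N0_not_mem

/-- **The word `x` over seven letters is self-shuffling and has exactly one steering word.** -/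
theorem result : ∃ x : ℕ → Fin 7, ∃! N : Set ℕ, 0 ∈ N ∧ N.Infinite ∧ Nᶜ.Infinite ∧
    (∀ k, x (Nat.nth (· ∈ N) k) = x k) ∧ (∀ k, x (Nat.nth (· ∉ N) k) = x k) := by
  classical
  refine ⟨x, N0, ⟨?_, N0_inf, N0c_inf, ?_, ?_⟩, ?_⟩
  · show cnt (0 + 1) = cnt 0 + 1
    rfl
  · intro k
    have hm : Nat.nth (· ∈ N0) k ∈ N0 := Nat.nth_mem_of_infinite (p := (· ∈ N0)) N0_inf k
    have hc : Nat.count (· ∈ N0) (Nat.nth (· ∈ N0) k) = k :=
      Nat.count_nth_of_infinite (p := (· ∈ N0)) N0_inf k
    set m := Nat.nth (· ∈ N0) k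
    rw [count_N0] at hc
    rw [x_eq_iff]
    rcases main_step m with ⟨e1, e2⟩ | ⟨e1, e2⟩
    · rw [e2, hc]
    · have h' : cnt (m + 1) = cnt m + 1 := hm
      omega
  · intro k
    have hm : Nat.nth (· ∉ N0) k ∉ N0 := Nat.nth_mem_of_infinite (p := (· ∉ N0)) N0c_inf k
    have hc : Nat.count (· ∉ N0) (Nat.nth (· ∉ N0) k) = k :=
      Nat.count_nth_of_infinite (p := (· ∉ N0)) N0c_inf k
    set m := Nat.nth (· ∉ N0) k
    have hcc := count_compl N0 m
    rw [count_N0] at hcc
    rw [x_eq_iff]
    rcases main_step m with ⟨e1, e2⟩ | ⟨e1, e2⟩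
    · exact absurd e1 hm
    · rw [e2, show m - cnt m = k by omega]
  · rintro N ⟨h0, hN, hNc, hx1, hx2⟩
    set a : ℕ → ℕ := fun n => Nat.count (· ∈ N) n with ha
    have hstep : ∀ n, (n ∈ N ∧ y n = y (a n) ∧ a (n + 1) = a n + 1) ∨
        (n ∉ N ∧ y n = y (n - a n) ∧ a (n + 1) = a n) := by
      intro n
      by_cases h : n ∈ N
      · left
        refine ⟨h, ?_, ?_⟩
        · have h1 : Nat.nth (· ∈ N) (a n) = n := Nat.nth_count (p := (· ∈ N)) h
          have h2 := hx1 (a n)
          rw [h1, x_eq_iff] at h2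
          exact h2
        · simp only [ha, Nat.count_succ, if_pos h]
      · right
        refine ⟨h, ?_, ?_⟩
        · have h1 : Nat.nth (· ∉ N) (Nat.count (· ∉ N) n) = n := Nat.nth_count (p := (· ∉ N)) h
          have h2 := hx2 (Nat.count (· ∉ N) n)
          rw [h1, x_eq_iff] at h2
          have h3 := count_compl N n
          rw [h2]
          congr 1
          simp only [ha]; omega
        · simp only [ha, Nat.count_succ, if_neg h, add_zero]
    have hpath : IsPath a := ⟨fun n => Nat.count_le (p := (· ∈ N)) (n := n), fun n => by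
      rcases hstep n with ⟨-, h⟩ | ⟨-, h⟩
      · exact Or.inl h
      · exact Or.inr h⟩
    have h1 : a 1 = 1 := by
      simp only [ha]
      rw [show (1 : ℕ) = 0 + 1 by rfl, Nat.count_succ, if_pos h0, Nat.count_zero]
    have hinf : ∀ n, ∃ m, n ≤ m ∧ a (m + 1) = a m := by
      intro n
      obtain ⟨m, hm, hnm⟩ := hNc.exists_gt n
      refine ⟨m, hnm.le, ?_⟩
      rcases hstep m with ⟨h, -⟩ | ⟨-, -, h⟩
      · exact absurd h hm
      · exact h
    have hall := path_eq a hpath h1 hinf
    ext n
    constructor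
    · intro h
      rcases hstep n with ⟨-, -, e⟩ | ⟨h', -⟩
      · show cnt (n + 1) = cnt n + 1
        rw [← hall, ← hall, e]
      · exact absurd h h'
    · intro h
      have h' : cnt (n + 1) = cnt n + 1 := h
      rcases hstep n with ⟨hn, -⟩ | ⟨-, -, e⟩
      · exact hn
      · rw [hall, hall] at e; omega

end Pool.Agent.Results.MP_814ec7_co.UniqueSteering
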